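import Mathlib

/-!
# Weak separation of a closed cone from the origin versus bounded base (MP_388f8c_an, Q1)

There are a real normed space `X` and a closed (pointed, convex, nonzero) cone `C ⊆ X` such that
`0` is not in the weak closure of `C \ ε B_X` for every `ε ∈ (0, 1)`, although `C` has no bounded
base.  More precisely, such a cone exists in a real normed space `X` if and only if `X` is not
complete.
-/

namespace Pool.Agent.Results.MP_388f8c_an.ClosedConeCompleteness

open Set Topology Filter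
open scoped Pointwise

section defs

variable {X : Type} [NormedAddCommGroup X] [NormedSpace ℝ X]

/-- A cone: a nonempty set closed under addition and under multiplication by nonnegative reals,
with `C ∩ (-C) = {0}`. -/
structure IsCone (C : Set X) : Prop where
  nonempty : C.Nonempty
  add_mem : ∀ x ∈ C, ∀ y ∈ C, x + y ∈ C
  smul_mem : ∀ t : ℝ, 0 ≤ t → ∀ x ∈ C, t • x ∈ C
  pointed : C ∩ (-C) = {0}

/-- A base of `C`: a nonempty convex subset `B` whose norm closure does not contain `0`, such that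
every nonzero element of `C` can be written in exactly one way as `t • b` with `t > 0` and
`b ∈ B`. -/
structure IsBase (C B : Set X) : Prop where
  nonempty : B.Nonempty
  convex : Convex ℝ B
  subset : B ⊆ C
  zero_notMem : (0 : X) ∉ closure B
  unique_rep : ∀ c ∈ C, c ≠ 0 → ∃! p : ℝ × X, 0 < p.1 ∧ p.2 ∈ B ∧ c = p.1 • p.2

/-- `C` has a bounded base. -/
def HasBoundedBase (C : Set X) : Prop := ∃ B : Set X, IsBase C B ∧ Bornology.IsBounded B

/-- Condition `(∗)`: for every `ε ∈ (0,1)`, the origin is not in the weak closure of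
`C \ ε B_X`. -/
def WeaklySeparated (C : Set X) : Prop :=
  ∀ ε : ℝ, 0 < ε → ε < 1 →
    (0 : WeakSpace ℝ X) ∉ closure (toWeakSpace ℝ X '' (C \ (ε • Metric.closedBall (0 : X) 1)))

end defs

variable {X : Type} [NormedAddCommGroup X] [NormedSpace ℝ X]

/-! ### General facts -/

theorem IsCone.zero_mem {C : Set X} (h : IsCone C) : (0 : X) ∈ C := by
  obtain ⟨x, hx⟩ := h.nonempty
  have := h.smul_mem 0 le_rfl x hx
  rwa [zero_smul] at this

theorem IsCone.eq_zero {C : Set X} (h : IsCone C) {x : X} (hx : x ∈ C) (hx' : -x ∈ C) :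
    x = 0 := by
  have : x ∈ C ∩ (-C) := ⟨hx, hx'⟩
  rw [h.pointed] at this
  exact this

/-- continuity of functionals for the weak topology -/
theorem continuous_weak (f : X →L[ℝ] ℝ) :
    Continuous fun x : WeakSpace ℝ X => f ((toWeakSpace ℝ X).symm x) :=
  WeakBilin.eval_continuous (topDualPairing ℝ X).flip f

theorem norm_gt_of_notMem {ε : ℝ} (hε : 0 < ε) {p : X}
    (hpb : p ∉ ε • Metric.closedBall (0 : X) 1) : ε < ‖p‖ := by
  by_contra hlt
  push Not at hlt
  refine hpb ?_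
  rw [Set.mem_smul_set]
  refine ⟨ε⁻¹ • p, ?_, ?_⟩
  · rw [mem_closedBall_zero_iff, norm_smul, Real.norm_of_nonneg (inv_nonneg.2 hε.le),
      inv_mul_le_iff₀ hε, mul_one]
    exact hlt
  · rw [smul_smul, mul_inv_cancel₀ hε.ne', one_smul]

/-- two functionals controlling the norm on `C` give `(∗)` -/
theorem weaklySeparated_of_two {C : Set X} (f g : X →L[ℝ] ℝ)
    (h : ∀ x ∈ C, ‖x‖ ≤ |f x| + |g x|) : WeaklySeparated C := by
  intro ε hε _ h0
  set G : WeakSpace ℝ X → ℝ := fun x =>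
    |f ((toWeakSpace ℝ X).symm x)| + |g ((toWeakSpace ℝ X).symm x)| with hg
  have hgc : Continuous G := (continuous_weak f).abs.add (continuous_weak g).abs
  have hcl : IsClosed {x | ε ≤ G x} := isClosed_le continuous_const hgc
  have hsub : toWeakSpace ℝ X '' (C \ (ε • Metric.closedBall (0 : X) 1)) ⊆ {x | ε ≤ G x} := by
    rintro _ ⟨p, ⟨hp, hpb⟩, rfl⟩
    show ε ≤ |f p| + |g p|
    exact (norm_gt_of_notMem hε hpb).le.trans (h p hp)
  have h1 := closure_minimal hsub hcl h0
  have h2 : G 0 = 0 := by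
    show |f (0 : X)| + |g (0 : X)| = 0
    simp
  rw [Set.mem_ofPred_eq, h2] at h1
  linarith

/-- a bounded base gives a functional which is bounded below on the cone -/
theorem HasBoundedBase.functional {C : Set X} (h : HasBoundedBase C) :
    ∃ (f : X →L[ℝ] ℝ) (κ : ℝ), 0 < κ ∧ ∀ c ∈ C, κ * ‖c‖ ≤ f c := by
  obtain ⟨B, hB, hbd⟩ := h
  obtain ⟨f, u, hfu, hub⟩ := geometric_hahn_banach_point_closed (x := (0 : X))
    hB.convex.closure isClosed_closure hB.zero_notMem
  rw [map_zero] at hfu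
  obtain ⟨M, hM⟩ := hbd.exists_norm_le
  have hM' : 0 < max M 1 := lt_of_lt_of_le one_pos (le_max_right _ _)
  refine ⟨f, u / max M 1, div_pos hfu hM', fun c hc => ?_⟩
  by_cases hc0 : c = 0
  · simp [hc0]
  obtain ⟨⟨t, b⟩, ⟨ht, hb, hcb⟩, -⟩ := hB.unique_rep c hc hc0
  simp only at ht hb hcb
  rw [hcb, map_smul, norm_smul, Real.norm_of_nonneg ht.le, smul_eq_mul]
  have h1 : ‖b‖ ≤ max M 1 := (hM b hb).trans (le_max_left _ _)
  have h2 : u < f b := hub b (subset_closure hb)
  have h3 : u / max M 1 * ‖b‖ ≤ u := by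
    rw [div_mul_eq_mul_div, div_le_iff₀ hM']
    exact mul_le_mul_of_nonneg_left h1 hfu.le
  calc u / max M 1 * (t * ‖b‖) = t * (u / max M 1 * ‖b‖) := by ring
    _ ≤ t * f b := mul_le_mul_of_nonneg_left (h3.trans h2.le) ht.le

/-- if `C` has a bounded base, elements `a n, b n` of `C` with `a n + b n → 0` tend to zero -/
theorem HasBoundedBase.tendsto {C : Set X} (h : HasBoundedBase C) {a b : ℕ → X}
    (ha : ∀ n, a n ∈ C) (hb : ∀ n, b n ∈ C)
    (hab : Tendsto (fun n => a n + b n) atTop (𝓝 0)) : Tendsto a atTop (𝓝 0) := by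
  obtain ⟨f, κ, hκ, hf⟩ := h.functional
  have h1 : Tendsto (fun n => κ⁻¹ * f (a n + b n)) atTop (𝓝 0) := by
    have := (f.continuous.tendsto 0).comp hab
    rw [map_zero] at this
    have h2 := this.const_mul κ⁻¹
    rw [mul_zero] at h2
    exact h2
  refine squeeze_zero_norm (fun n => ?_) h1
  have h2 := hf (a n) (ha n)
  have h3 := hf (b n) (hb n)
  have h4 : 0 ≤ κ * ‖b n‖ := by positivity
  rw [map_add]
  rw [← div_eq_inv_mul, le_div_iff₀ hκ]
  linarith

/-! ### Incomplete spaces -/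

section incomplete

open UniformSpace

/-- In an incomplete space there is a closed cone satisfying `(∗)` without a bounded base. -/
theorem exists_cone_of_not_complete (hX : ¬ CompleteSpace X) :
    ∃ C : Set X, IsCone C ∧ C ≠ {0} ∧ IsClosed C ∧ WeaklySeparated C ∧ ¬ HasBoundedBase C := by
  -- a point of the completion outside of `X`
  have hw : ∃ w : Completion X, w ∉ range ((↑) : X → Completion X) := by
    by_contra hcon
    push Not at hcon
    apply hX
    have hr : range ((↑) : X → Completion X) = univ := eq_univ_of_forall hcon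
    have hu : IsUniformInducing ((↑) : X → Completion X) := Completion.isUniformInducing_coe X
    rw [completeSpace_iff_isComplete_range hu, hr]
    exact isComplete_univ
  obtain ⟨w, hw⟩ := hw
  let ι : X →L[ℝ] Completion X := Completion.toComplL
  have hι : ∀ x : X, ι x = (x : Completion X) := fun x => rfl
  have hnorm : ∀ x : X, ‖ι x‖ = ‖x‖ := fun x => Completion.norm_coe x
  have hιinj : ∀ x : X, ι x = 0 → x = 0 := by
    intro x hx
    rw [← norm_eq_zero, ← hnorm, hx, norm_zero]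
  have hwι : ∀ x : X, ι x ≠ w := fun x hx => hw ⟨x, hx⟩
  have hw0 : w ≠ 0 := fun h => hwι 0 (by rw [map_zero, h])
  have hwmul : ∀ (t : ℝ) (x : X), ι x = t • w → x = 0 := by
    intro t x h
    by_cases ht : t = 0
    · rw [ht, zero_smul] at h
      exact hιinj x h
    · exfalso
      refine hwι (t⁻¹ • x) ?_
      rw [map_smul, h, smul_smul, inv_mul_cancel₀ ht, one_smul]
  -- a nonzero element of `X`
  obtain ⟨y, hy⟩ : ∃ y : ℕ → X, Tendsto (fun n => ι (y n)) atTop (𝓝 w) := by
    have h1 : w ∈ closure (range ((↑) : X → Completion X)) := by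
      rw [Completion.denseRange_coe.closure_range]
      exact mem_univ w
    obtain ⟨u, hu, hlim⟩ := mem_closure_iff_seq_limit.1 h1
    choose y hy using hu
    refine ⟨y, ?_⟩
    have : (fun n => ι (y n)) = u := funext fun n => hy n
    rw [this]
    exact hlim
  obtain ⟨e₀, he₀⟩ : ∃ e₀ : X, e₀ ≠ 0 := by
    by_contra hcon
    push Not at hcon
    have : (fun n => ι (y n)) = fun _ => (0 : Completion X) := by
      funext n
      rw [hcon (y n), map_zero]
    rw [this] at hy
    exact hw0 (tendsto_nhds_unique hy tendsto_const_nhds)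
  -- the functional `φ` with `φ w = 1`
  obtain ⟨φ, hφ⟩ : ∃ φ : Completion X →L[ℝ] ℝ, φ w = 1 := by
    obtain ⟨g, -, hg⟩ := exists_dual_vector ℝ w (norm_ne_zero_iff.2 hw0)
    refine ⟨‖w‖⁻¹ • g, ?_⟩
    show ‖w‖⁻¹ * g w = 1
    rw [hg]
    exact inv_mul_cancel₀ (norm_ne_zero_iff.2 hw0)
  -- the functional `ψ` with `ψ w = 0` and `ψ e₀ = 1`
  obtain ⟨ψ, hψ, hψe⟩ : ∃ ψ : Completion X →L[ℝ] ℝ, ψ w = 0 ∧ ψ (ι e₀) = 1 := by
    have hu : ι e₀ - φ (ι e₀) • w ≠ 0 := by
      intro h
      exact he₀ (hwmul _ _ (sub_eq_zero.1 h))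
    obtain ⟨g, -, hg⟩ := exists_dual_vector ℝ (ι e₀ - φ (ι e₀) • w) (norm_ne_zero_iff.2 hu)
    set c : ℝ := ‖ι e₀ - φ (ι e₀) • w‖ with hc
    have hc0 : c ≠ 0 := norm_ne_zero_iff.2 hu
    refine ⟨c⁻¹ • (g - (g w) • φ), ?_, ?_⟩
    · show c⁻¹ * (g w - g w * φ w) = 0
      rw [hφ]
      ring
    · show c⁻¹ * (g (ι e₀) - g w * φ (ι e₀)) = 1
      rw [map_sub, map_smul, smul_eq_mul] at hg
      have : g (ι e₀) - g w * φ (ι e₀) = c := by
        have hg' : g (ι e₀) - φ (ι e₀) * g w = c := by simpa using hg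
        linarith
      rw [this]
      exact inv_mul_cancel₀ hc0
  -- the constant
  set D : ℝ := ‖ι e₀ - φ (ι e₀) • w‖ with hD
  set K : ℝ := D + 1 with hK
  have hD0 : 0 ≤ D := norm_nonneg _
  have hK0 : 0 < K := by linarith
  set C : Set X := {x | ‖ι x - φ (ι x) • w‖ ≤ K * ψ (ι x)} with hC
  have hC0 : (0 : X) ∈ C := by
    show ‖ι 0 - φ (ι 0) • w‖ ≤ K * ψ (ι 0)
    simp
  have hψnn : ∀ x ∈ C, 0 ≤ ψ (ι x) := by
    intro x hx
    have h1 : 0 ≤ K * ψ (ι x) := (norm_nonneg _).trans hx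
    exact nonneg_of_mul_nonneg_right h1 hK0
  have hcone : IsCone C := by
    refine ⟨⟨0, hC0⟩, ?_, ?_, ?_⟩
    · intro x hx x' hx'
      show ‖ι (x + x') - φ (ι (x + x')) • w‖ ≤ K * ψ (ι (x + x'))
      have : ι (x + x') - φ (ι (x + x')) • w
          = (ι x - φ (ι x) • w) + (ι x' - φ (ι x') • w) := by
        rw [map_add, map_add, add_smul]
        abel
      rw [this, map_add, map_add, mul_add]
      exact (norm_add_le _ _).trans (add_le_add hx hx')
    · intro t ht x hx
      show ‖ι (t • x) - φ (ι (t • x)) • w‖ ≤ K * ψ (ι (t • x))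
      have : ι (t • x) - φ (ι (t • x)) • w = t • (ι x - φ (ι x) • w) := by
        rw [map_smul, map_smul, smul_sub, smul_smul, smul_eq_mul]
      rw [this, norm_smul, Real.norm_of_nonneg ht, map_smul, map_smul, smul_eq_mul]
      have := mul_le_mul_of_nonneg_left hx ht
      calc t * ‖ι x - φ (ι x) • w‖ ≤ t * (K * ψ (ι x)) := this
        _ = K * (t * ψ (ι x)) := by ring
    · ext x
      simp only [mem_inter_iff, Set.mem_neg, mem_singleton_iff]
      constructor
      · rintro ⟨hx, hx'⟩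
        have h1 := hψnn x hx
        have h2 := hψnn (-x) hx'
        rw [map_neg, map_neg] at h2
        have h3 : ψ (ι x) = 0 := by linarith
        have h4 : ‖ι x - φ (ι x) • w‖ ≤ 0 := by
          have : ‖ι x - φ (ι x) • w‖ ≤ K * ψ (ι x) := hx
          rwa [h3, mul_zero] at this
        exact hwmul _ _ (sub_eq_zero.1 (norm_le_zero_iff.1 h4))
      · rintro rfl
        exact ⟨hC0, by rw [neg_zero]; exact hC0⟩
  have hclosed : IsClosed C := by
    refine isClosed_le ?_ ?_
    · have h1 : Continuous fun x : X => φ (ι x) := φ.continuous.comp ι.continuous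
      exact (ι.continuous.sub (h1.smul continuous_const)).norm
    · have h1 : Continuous fun x : X => ψ (ι x) := ψ.continuous.comp ι.continuous
      exact continuous_const.mul h1
  have hsep : WeaklySeparated C := by
    refine weaklySeparated_of_two (‖w‖ • (φ.comp ι)) (K • (ψ.comp ι)) fun x hx => ?_
    have h1 : ‖x‖ ≤ ‖ι x - φ (ι x) • w‖ + ‖φ (ι x) • w‖ := by
      rw [← hnorm x]
      calc ‖ι x‖ = ‖(ι x - φ (ι x) • w) + φ (ι x) • w‖ := by rw [sub_add_cancel]
        _ ≤ _ := norm_add_le _ _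
    have h2 : ‖φ (ι x) • w‖ = |‖w‖ * φ (ι x)| := by
      rw [norm_smul, abs_mul, abs_of_nonneg (norm_nonneg w), Real.norm_eq_abs, mul_comm]
    have h3 : ‖ι x - φ (ι x) • w‖ ≤ |K * ψ (ι x)| := le_trans hx (le_abs_self _)
    show ‖x‖ ≤ |‖w‖ * φ (ι x)| + |K * ψ (ι x)|
    linarith
  -- sequences in `C` tending to `w` and to `-w`
  have hseq : ∀ s : ℝ, |s| = 1 → ∃ a : ℕ → X, (∀ n, a n ∈ C) ∧
      Tendsto (fun n => ι (a n)) atTop (𝓝 (s • w)) := by
    intro s hs
    set r : ℕ → ℝ := fun n => ‖ι (y n) - φ (ι (y n)) • w‖ + K * |ψ (ι (y n))| with hr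
    have hr0 : Tendsto r atTop (𝓝 0) := by
      have h1 : Tendsto (fun n => φ (ι (y n))) atTop (𝓝 1) := by
        have := (φ.continuous.tendsto w).comp hy
        rwa [hφ] at this
      have h2 : Tendsto (fun n => ψ (ι (y n))) atTop (𝓝 0) := by
        have := (ψ.continuous.tendsto w).comp hy
        rwa [hψ] at this
      have h3 : Tendsto (fun n => ‖ι (y n) - φ (ι (y n)) • w‖) atTop (𝓝 0) := by
        have := (hy.sub (h1.smul_const w)).norm
        rwa [one_smul, sub_self, norm_zero] at this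
      have h4 : Tendsto (fun n => K * |ψ (ι (y n))|) atTop (𝓝 0) := by
        have := h2.abs.const_mul K
        rwa [abs_zero, mul_zero] at this
      have := h3.add h4
      rwa [add_zero] at this
    refine ⟨fun n => s • y n + r n • e₀, fun n => ?_, ?_⟩
    · have hrn : 0 ≤ r n := by positivity
      show ‖ι (s • y n + r n • e₀) - φ (ι (s • y n + r n • e₀)) • w‖
        ≤ K * ψ (ι (s • y n + r n • e₀))
      have e1 : ι (s • y n + r n • e₀) - φ (ι (s • y n + r n • e₀)) • w
          = s • (ι (y n) - φ (ι (y n)) • w) + r n • (ι e₀ - φ (ι e₀) • w) := by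
        simp only [map_add, map_smul, smul_eq_mul, add_smul, smul_sub, smul_smul]
        abel
      have e2 : ψ (ι (s • y n + r n • e₀)) = s * ψ (ι (y n)) + r n := by
        simp only [map_add, map_smul, smul_eq_mul, hψe, mul_one]
      rw [e1, e2]
      have h1 : ‖s • (ι (y n) - φ (ι (y n)) • w) + r n • (ι e₀ - φ (ι e₀) • w)‖
          ≤ ‖ι (y n) - φ (ι (y n)) • w‖ + r n * D := by
        refine (norm_add_le _ _).trans ?_
        rw [norm_smul, norm_smul, Real.norm_eq_abs, hs, one_mul, Real.norm_of_nonneg hrn]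
      have h2 : -|ψ (ι (y n))| ≤ s * ψ (ι (y n)) := by
        have : |s * ψ (ι (y n))| = |ψ (ι (y n))| := by rw [abs_mul, hs, one_mul]
        rw [← this]
        exact neg_abs_le _
      have h3 : K * (-|ψ (ι (y n))|) ≤ K * (s * ψ (ι (y n))) :=
        mul_le_mul_of_nonneg_left h2 hK0.le
      have h4 : r n = ‖ι (y n) - φ (ι (y n)) • w‖ + K * |ψ (ι (y n))| := rfl
      have h5 : K * r n = r n * D + r n := by rw [hK]; ring
      calc _ ≤ ‖ι (y n) - φ (ι (y n)) • w‖ + r n * D := h1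
        _ = K * (-|ψ (ι (y n))|) + (r n * D + r n) := by rw [h4]; ring
        _ ≤ K * (s * ψ (ι (y n))) + K * r n := by rw [h5]; linarith
        _ = K * (s * ψ (ι (y n)) + r n) := by ring
    · have h1 : Tendsto (fun n => s • ι (y n) + r n • ι e₀) atTop
          (𝓝 (s • w + (0 : ℝ) • ι e₀)) := (hy.const_smul s).add (hr0.smul_const _)
      rw [zero_smul, add_zero] at h1
      refine h1.congr fun n => ?_
      rw [map_add, map_smul, map_smul]
  obtain ⟨a, haC, ha⟩ := hseq 1 (by simp)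
  obtain ⟨b, hbC, hb⟩ := hseq (-1) (by simp)
  rw [one_smul] at ha
  have hna : ¬ Tendsto a atTop (𝓝 0) := by
    intro h
    have h1 := (ι.continuous.tendsto 0).comp h
    rw [map_zero] at h1
    exact hw0 (tendsto_nhds_unique ha h1)
  refine ⟨C, hcone, ?_, hclosed, hsep, ?_⟩
  · intro hCz
    refine hna ?_
    have : a = fun _ => 0 := by
      funext n
      have := haC n
      rw [hCz] at this
      exact this
    rw [this]
    exact tendsto_const_nhds
  · intro hbase
    refine hna (hbase.tendsto haC hbC ?_)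
    have h1 := ha.add hb
    rw [neg_smul, one_smul, add_neg_cancel] at h1
    rw [tendsto_zero_iff_norm_tendsto_zero]
    rw [tendsto_zero_iff_norm_tendsto_zero] at h1
    refine h1.congr fun n => ?_
    rw [← map_add, hnorm]

end incomplete

/-! ### Complete spaces -/

/-- `(∗)` gives a continuous linear map into a finite-dimensional space, bounded below on `C`. -/
theorem WeaklySeparated.exists_map {C : Set X} (hC : IsCone C) (h : WeaklySeparated C) :
    ∃ (n : ℕ) (F : X →L[ℝ] (Fin n → ℝ)) (r : ℝ), 0 < r ∧ ∀ x ∈ C, r * ‖x‖ ≤ ‖F x‖ := by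
  have h0 := h (1 / 2) (by norm_num) (by norm_num)
  set S : Set (WeakSpace ℝ X) :=
    toWeakSpace ℝ X '' (C \ ((1 / 2 : ℝ) • Metric.closedBall (0 : X) 1)) with hS
  have h1 : (closure S)ᶜ ∈ 𝓝 (0 : WeakSpace ℝ X) := isClosed_closure.isOpen_compl.mem_nhds h0
  have hbasis := LinearMap.hasBasis_weakBilin (topDualPairing ℝ X).flip
  obtain ⟨U, hU, hUS⟩ := hbasis.mem_iff.1 h1
  rw [SeminormFamily.basisSets_iff] at hU
  obtain ⟨s, r, hr, rfl⟩ := hU
  have key : ∀ x ∈ C, 1 / 2 < ‖x‖ → ∃ f ∈ s, r ≤ |f x| := by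
    intro x hx hx2
    by_contra hcon
    push Not at hcon
    have hxS : toWeakSpace ℝ X x ∈ S := by
      refine ⟨x, ⟨hx, ?_⟩, rfl⟩
      rintro ⟨z, hz, rfl⟩
      rw [mem_closedBall_zero_iff] at hz
      rw [norm_smul, Real.norm_of_nonneg (by norm_num)] at hx2
      linarith
    have hxU : (s.sup (topDualPairing ℝ X).flip.toSeminormFamily) x < r :=
      Seminorm.finset_sup_apply_lt hr fun f hf => hcon f hf
    exact hUS ((Seminorm.mem_ball_zero _).2 hxU) (subset_closure hxS)
  let e : Fin s.card ≃ s := s.equivFin.symm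
  refine ⟨s.card, ContinuousLinearMap.pi fun i => ((e i : X →L[ℝ] ℝ)), r, hr, fun x hx => ?_⟩
  by_cases hx0 : x = 0
  · rw [hx0, norm_zero, mul_zero]
    exact norm_nonneg _
  have hxn : 0 < ‖x‖ := norm_pos_iff.2 hx0
  obtain ⟨f, hf, hrf⟩ := key (‖x‖⁻¹ • x) (hC.smul_mem _ (by positivity) x hx) (by
    rw [norm_smul, norm_inv, norm_norm, inv_mul_cancel₀ hxn.ne']
    norm_num)
  have h2 : r * ‖x‖ ≤ |f x| := by
    rw [map_smul, smul_eq_mul, abs_mul, abs_of_pos (inv_pos.2 hxn), ← div_eq_inv_mul,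
      le_div_iff₀ hxn] at hrf
    exact hrf
  have h3 : |f x| ≤ ‖(ContinuousLinearMap.pi fun i => ((e i : X →L[ℝ] ℝ))) x‖ := by
    have := norm_le_pi_norm ((ContinuousLinearMap.pi fun i => ((e i : X →L[ℝ] ℝ))) x)
      (e.symm ⟨f, hf⟩)
    simpa using this
  exact h2.trans h3

/-- a closed salient cone in a finite-dimensional space admits a functional bounded below by the
norm -/
theorem exists_functional_finite {n : ℕ} (K : Set (Fin n → ℝ)) (hK : IsClosed K)
    (h0 : (0 : Fin n → ℝ) ∈ K) (hadd : ∀ x ∈ K, ∀ y ∈ K, x + y ∈ K)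
    (hsmul : ∀ t : ℝ, 0 ≤ t → ∀ x ∈ K, t • x ∈ K) (hsal : ∀ x ∈ K, -x ∈ K → x = 0) :
    ∃ (g : (Fin n → ℝ) →L[ℝ] ℝ) (κ : ℝ), 0 < κ ∧ ∀ x ∈ K, κ * ‖x‖ ≤ g x := by
  have hconv : Convex ℝ K := by
    intro x hx y hy a b ha hb _
    exact hadd _ (hsmul a ha x hx) _ (hsmul b hb y hy)
  have hpt : ∀ k ∈ K, k ≠ 0 → ∃ g : (Fin n → ℝ) →L[ℝ] ℝ, (∀ x ∈ K, 0 ≤ g x) ∧ 0 < g k := by
    intro k hk hk0
    have hnk : -k ∉ K := fun h => hk0 (hsal k hk h)
    obtain ⟨f, u, hf, hfu⟩ := geometric_hahn_banach_closed_point hconv hK hnk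
    have hu : 0 < u := by
      have := hf 0 h0
      rwa [map_zero] at this
    have hle : ∀ x ∈ K, f x ≤ 0 := by
      intro x hx
      by_contra hpos
      push Not at hpos
      have h1 := hf ((u / f x) • x) (hsmul _ (by positivity) x hx)
      rw [map_smul, smul_eq_mul, div_mul_cancel₀ _ hpos.ne'] at h1
      exact lt_irrefl _ h1
    refine ⟨-f, fun x hx => ?_, ?_⟩
    · show 0 ≤ -f x
      linarith [hle x hx]
    · show 0 < -f k
      rw [map_neg] at hfu
      linarith
  -- the compact set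
  set S : Set (Fin n → ℝ) := K ∩ Metric.sphere 0 1 with hS
  have hScomp : IsCompact S := (isCompact_sphere _ _).inter_left hK
  have hne : ∀ x ∈ S, x ≠ 0 := by
    rintro x ⟨-, hx⟩ rfl
    simp at hx
  have hpt' : ∀ x ∈ S, ∃ g : (Fin n → ℝ) →L[ℝ] ℝ, (∀ z ∈ K, 0 ≤ g z) ∧ 0 < g x :=
    fun x hx => hpt x hx.1 (hne x hx)
  choose! G hG0 hG1 using hpt'
  obtain ⟨t, htS, hcov⟩ := hScomp.elim_nhds_subcover (fun x => {z | 0 < G x z})
    (fun x hx => (isOpen_lt continuous_const (G x).continuous).mem_nhds (hG1 x hx))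
  set g : (Fin n → ℝ) →L[ℝ] ℝ := ∑ x ∈ t, G x with hg
  have hgpos : ∀ z ∈ S, 0 < g z := by
    intro z hz
    obtain ⟨x, hx, hxz⟩ := mem_iUnion₂.1 (hcov hz)
    rw [hg, _root_.sum_apply]
    exact Finset.sum_pos' (fun i hi => hG0 i (htS i hi) z hz.1) ⟨x, hx, hxz⟩
  obtain hSe | hSne := S.eq_empty_or_nonempty
  · refine ⟨0, 1, one_pos, fun x hx => ?_⟩
    by_cases hx0 : x = 0
    · simp [hx0]
    · exfalso
      have : ‖x‖⁻¹ • x ∈ S := by
        refine ⟨hsmul _ (by positivity) x hx, ?_⟩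
        rw [mem_sphere_zero_iff_norm, norm_smul, norm_inv, norm_norm,
          inv_mul_cancel₀ (norm_ne_zero_iff.2 hx0)]
      rw [hSe] at this
      exact this
  · obtain ⟨z, hz, hmin⟩ := hScomp.exists_isMinOn hSne g.continuous.continuousOn
    refine ⟨g, g z, hgpos z hz, fun x hx => ?_⟩
    by_cases hx0 : x = 0
    · simp [hx0]
    have hxn : 0 < ‖x‖ := norm_pos_iff.2 hx0
    have h1 : ‖x‖⁻¹ • x ∈ S := by
      refine ⟨hsmul _ (by positivity) x hx, ?_⟩
      rw [mem_sphere_zero_iff_norm, norm_smul, norm_inv, norm_norm,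
        inv_mul_cancel₀ (norm_ne_zero_iff.2 hx0)]
    have h2 : g z ≤ g (‖x‖⁻¹ • x) := hmin h1
    rw [map_smul, smul_eq_mul, ← div_eq_inv_mul, le_div_iff₀ hxn] at h2
    exact h2

/-- In a complete space every nonzero closed cone with `(∗)` has a bounded base. -/
theorem hasBoundedBase_of_complete [CompleteSpace X] {C : Set X} (hC : IsCone C)
    (hC0 : C ≠ {0}) (hcl : IsClosed C) (hsep : WeaklySeparated C) : HasBoundedBase C := by
  obtain ⟨n, F, r, hr, hF⟩ := hsep.exists_map hC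
  -- Cauchy argument
  have hcauchy : ∀ (v : Fin n → ℝ) (a b : ℕ → X), (∀ k, a k ∈ C) → (∀ k, b k ∈ C) →
      Tendsto (fun k => F (a k)) atTop (𝓝 v) → Tendsto (fun k => F (b k)) atTop (𝓝 (-v)) →
      v = 0 := by
    intro v a b ha hb hav hbv
    have hest : ∀ k l, ‖a k + b l‖ ≤ r⁻¹ * (‖F (a k) - v‖ + ‖F (b l) + v‖) := by
      intro k l
      have h1 := hF _ (hC.add_mem _ (ha k) _ (hb l))
      have h2 : ‖F (a k + b l)‖ ≤ ‖F (a k) - v‖ + ‖F (b l) + v‖ := by
        have : F (a k + b l) = (F (a k) - v) + (F (b l) + v) := by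
          rw [map_add]
          abel
        rw [this]
        exact norm_add_le _ _
      rw [← div_eq_inv_mul, le_div_iff₀ hr, mul_comm]
      exact h1.trans h2
    have hA : Tendsto (fun k => ‖F (a k) - v‖) atTop (𝓝 0) := by
      have := (hav.sub_const v).norm
      rwa [sub_self, norm_zero] at this
    have hB : Tendsto (fun k => ‖F (b k) + v‖) atTop (𝓝 0) := by
      have := (hbv.add_const v).norm
      rwa [neg_add_cancel, norm_zero] at this
    have hCS : CauchySeq a := by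
      rw [Metric.cauchySeq_iff']
      intro ε hε
      have hε' : 0 < r * ε / 8 := by positivity
      obtain ⟨N₁, hN₁⟩ := (Metric.tendsto_atTop.1 hA) (r * ε / 8) hε'
      obtain ⟨N₂, hN₂⟩ := (Metric.tendsto_atTop.1 hB) (r * ε / 8) hε'
      refine ⟨N₁, fun k hk => ?_⟩
      have e1 : ‖F (a k) - v‖ < r * ε / 8 := by
        have := hN₁ k hk
        rwa [dist_zero_right, norm_norm] at this
      have e2 : ‖F (a N₁) - v‖ < r * ε / 8 := by
        have := hN₁ N₁ le_rfl
        rwa [dist_zero_right, norm_norm] at this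
      have e3 : ‖F (b N₂) + v‖ < r * ε / 8 := by
        have := hN₂ N₂ le_rfl
        rwa [dist_zero_right, norm_norm] at this
      have e4 : ‖a k + b N₂‖ ≤ ε / 4 := by
        refine (hest k N₂).trans ?_
        rw [← div_eq_inv_mul, div_le_iff₀ hr]
        linarith
      have e5 : ‖a N₁ + b N₂‖ ≤ ε / 4 := by
        refine (hest N₁ N₂).trans ?_
        rw [← div_eq_inv_mul, div_le_iff₀ hr]
        linarith
      rw [dist_eq_norm]
      have : a k - a N₁ = (a k + b N₂) - (a N₁ + b N₂) := by abel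
      rw [this]
      refine lt_of_le_of_lt (norm_sub_le _ _) ?_
      linarith
    obtain ⟨x, hx⟩ := cauchySeq_tendsto_of_complete hCS
    have hsum : Tendsto (fun k => a k + b k) atTop (𝓝 0) := by
      have h1 : Tendsto (fun k => r⁻¹ * (‖F (a k) - v‖ + ‖F (b k) + v‖)) atTop (𝓝 0) := by
        have := (hA.add hB).const_mul r⁻¹
        rwa [add_zero, mul_zero] at this
      exact squeeze_zero_norm (fun k => hest k k) h1
    have hbx : Tendsto b atTop (𝓝 (-x)) := by
      have h1 := hsum.sub hx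
      rw [zero_sub] at h1
      refine h1.congr fun k => ?_
      abel
    have hxC : x ∈ C := hcl.mem_of_tendsto hx (Eventually.of_forall ha)
    have hxC' : -x ∈ C := hcl.mem_of_tendsto hbx (Eventually.of_forall hb)
    have hx0 := hC.eq_zero hxC hxC'
    rw [hx0] at hx
    have h1 := (F.continuous.tendsto 0).comp hx
    rw [map_zero] at h1
    exact tendsto_nhds_unique hav h1
  -- the closure of the image
  set K : Set (Fin n → ℝ) := closure (F '' C) with hK
  have hKadd : ∀ x ∈ K, ∀ y ∈ K, x + y ∈ K := by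
    intro x hx y hy
    obtain ⟨u, hu, hux⟩ := mem_closure_iff_seq_limit.1 hx
    obtain ⟨u', hu', huy⟩ := mem_closure_iff_seq_limit.1 hy
    refine mem_closure_iff_seq_limit.2 ⟨fun k => u k + u' k, fun k => ?_, hux.add huy⟩
    obtain ⟨p, hp, hpk⟩ := hu k
    obtain ⟨q, hq, hqk⟩ := hu' k
    exact ⟨p + q, hC.add_mem p hp q hq, by rw [map_add, hpk, hqk]⟩
  have hKsmul : ∀ t : ℝ, 0 ≤ t → ∀ x ∈ K, t • x ∈ K := by
    intro t ht x hx
    obtain ⟨u, hu, hux⟩ := mem_closure_iff_seq_limit.1 hx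
    refine mem_closure_iff_seq_limit.2 ⟨fun k => t • u k, fun k => ?_, hux.const_smul t⟩
    obtain ⟨p, hp, hpk⟩ := hu k
    exact ⟨t • p, hC.smul_mem t ht p hp, by rw [map_smul, hpk]⟩
  have hK0 : (0 : Fin n → ℝ) ∈ K := subset_closure ⟨0, hC.zero_mem, map_zero F⟩
  have hKsal : ∀ x ∈ K, -x ∈ K → x = 0 := by
    intro x hx hx'
    obtain ⟨u, hu, hux⟩ := mem_closure_iff_seq_limit.1 hx
    obtain ⟨u', hu', hux'⟩ := mem_closure_iff_seq_limit.1 hx'
    choose a ha hau using hu
    choose b hb hbu using hu'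
    refine hcauchy x a b ha hb ?_ ?_
    · exact hux.congr fun k => (hau k).symm
    · exact hux'.congr fun k => (hbu k).symm
  obtain ⟨g, κ, hκ, hg⟩ := exists_functional_finite K isClosed_closure hK0 hKadd hKsmul hKsal
  set f : X →L[ℝ] ℝ := g.comp F with hf
  have hfC : ∀ c ∈ C, κ * r * ‖c‖ ≤ f c := by
    intro c hc
    have h1 : κ * ‖F c‖ ≤ g (F c) := hg _ (subset_closure ⟨c, hc, rfl⟩)
    have h2 : κ * (r * ‖c‖) ≤ κ * ‖F c‖ := mul_le_mul_of_nonneg_left (hF c hc) hκ.le
    calc κ * r * ‖c‖ = κ * (r * ‖c‖) := by ring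
      _ ≤ g (F c) := h2.trans h1
  have hκr : 0 < κ * r := mul_pos hκ hr
  have hfpos : ∀ c ∈ C, c ≠ 0 → 0 < f c := fun c hc hc0 =>
    lt_of_lt_of_le (mul_pos hκr (norm_pos_iff.2 hc0)) (hfC c hc)
  refine ⟨{c | c ∈ C ∧ f c = 1}, ⟨?_, ?_, ?_, ?_, ?_⟩, ?_⟩
  · -- nonempty
    obtain ⟨c, hc, hc0⟩ : ∃ c ∈ C, c ≠ 0 := by
      by_contra hcon
      push Not at hcon
      exact hC0 (Set.eq_singleton_iff_unique_mem.2 ⟨hC.zero_mem, hcon⟩)
    have h1 := hfpos c hc hc0
    refine ⟨(f c)⁻¹ • c, hC.smul_mem _ (inv_nonneg.2 h1.le) c hc, ?_⟩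
    rw [map_smul, smul_eq_mul, inv_mul_cancel₀ h1.ne']
  · -- convex
    rintro x ⟨hx, hfx⟩ y ⟨hy, hfy⟩ a b ha hb hab
    refine ⟨hC.add_mem _ (hC.smul_mem a ha x hx) _ (hC.smul_mem b hb y hy), ?_⟩
    rw [map_add, map_smul, map_smul, hfx, hfy, smul_eq_mul, smul_eq_mul, mul_one, mul_one, hab]
  · exact fun c hc => hc.1
  · intro h
    have hsub : {c | c ∈ C ∧ f c = 1} ⊆ {c | f c = 1} := fun c hc => hc.2
    have h1 : (0 : X) ∈ {c | f c = 1} :=
      closure_minimal hsub (isClosed_eq f.continuous continuous_const) h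
    rw [Set.mem_ofPred_eq, map_zero] at h1
    exact zero_ne_one h1
  · intro c hc hc0
    have h1 := hfpos c hc hc0
    refine ⟨(f c, (f c)⁻¹ • c), ⟨h1, ⟨hC.smul_mem _ (inv_nonneg.2 h1.le) c hc, ?_⟩, ?_⟩, ?_⟩
    · show f ((f c)⁻¹ • c) = 1
      rw [map_smul, smul_eq_mul, inv_mul_cancel₀ h1.ne']
    · show c = f c • ((f c)⁻¹ • c)
      rw [smul_smul, mul_inv_cancel₀ h1.ne', one_smul]
    · rintro ⟨t, b⟩ ⟨ht, ⟨hb, hfb⟩, hcb⟩
      simp only at ht hb hfb hcb
      have h2 : f c = t := by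
        rw [hcb, map_smul, hfb, smul_eq_mul, mul_one]
      refine Prod.ext h2.symm ?_
      show b = (f c)⁻¹ • c
      rw [h2, hcb, smul_smul, inv_mul_cancel₀ ht.ne', one_smul]
  · rw [isBounded_iff_forall_norm_le]
    refine ⟨(κ * r)⁻¹, ?_⟩
    rintro c ⟨hc, hfc⟩
    have h1 := hfC c hc
    rw [hfc] at h1
    rw [← one_div, le_div_iff₀ hκr]
    linarith

/-- an incomplete real normed space -/
theorem exists_incomplete : ∃ (X : Type) (_ : NormedAddCommGroup X) (_ : NormedSpace ℝ X),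
    ¬ CompleteSpace X := by
  let E := lp (fun _ : ℕ => ℝ) 1
  let Y : Submodule ℝ E :=
    { carrier := {f | ∃ N : ℕ, ∀ n, N ≤ n → f n = 0}
      zero_mem' := ⟨0, fun n _ => rfl⟩
      add_mem' := by
        rintro p q ⟨N, hN⟩ ⟨M, hM⟩
        refine ⟨max N M, fun n hn => ?_⟩
        have h1 := hN n (le_trans (le_max_left _ _) hn)
        have h2 := hM n (le_trans (le_max_right _ _) hn)
        show p n + q n = 0
        rw [h1, h2, add_zero]
      smul_mem' := by
        rintro c p ⟨N, hN⟩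
        refine ⟨N, fun n hn => ?_⟩
        show c * p n = 0
        rw [hN n hn, mul_zero] }
  refine ⟨Y, inferInstance, inferInstance, fun hcomp => ?_⟩
  have hcl : IsClosed (Y : Set E) := (completeSpace_coe_iff_isComplete.1 hcomp).isClosed
  let w : E := ⟨fun n => (1 / 2 : ℝ) ^ n, memℓp_gen (by
    simpa using summable_geometric_two)⟩
  have hw : w ∈ Y := by
    have hs : HasSum (fun i => lp.single 1 i (w i)) w := lp.hasSum_single (by simp) w
    refine hcl.mem_of_tendsto hs.tendsto_sum_nat (Eventually.of_forall fun k => ?_)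
    refine Submodule.sum_mem _ fun i hi => ?_
    refine ⟨i + 1, fun n hn => ?_⟩
    rw [lp.single_apply_ne]
    omega
  obtain ⟨N, hN⟩ := hw
  have h1 : (1 / 2 : ℝ) ^ N = 0 := hN N le_rfl
  have h2 : (0 : ℝ) < (1 / 2 : ℝ) ^ N := by positivity
  linarith

/-- **MP_388f8c_an, Q1 (yes).**  There are a real normed space `X` and a closed cone `C ≠ {0}` in
`X` which satisfies `(∗)` but has no bounded base.  More precisely, a real normed space `X`
contains such a cone if and only if `X` is not complete. -/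
theorem result :
    (∃ (X : Type) (_ : NormedAddCommGroup X) (_ : NormedSpace ℝ X) (C : Set X),
      IsCone C ∧ C ≠ {0} ∧ IsClosed C ∧ WeaklySeparated C ∧ ¬ HasBoundedBase C) ∧
    ∀ (X : Type) [NormedAddCommGroup X] [NormedSpace ℝ X],
      (∃ C : Set X, IsCone C ∧ C ≠ {0} ∧ IsClosed C ∧ WeaklySeparated C ∧ ¬ HasBoundedBase C) ↔
        ¬ CompleteSpace X := by
  constructor
  · obtain ⟨X, h1, h2, h3⟩ := exists_incomplete
    obtain ⟨C, hC⟩ := exists_cone_of_not_complete h3
    exact ⟨X, h1, h2, C, hC⟩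
  · intro X _ _
    constructor
    · rintro ⟨C, h1, h2, h3, h4, h5⟩ hcomp
      exact h5 (hasBoundedBase_of_complete h1 h2 h3 h4)
    · exact fun h => exists_cone_of_not_complete h

end Pool.Agent.Results.MP_388f8c_an.ClosedConeCompleteness
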